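import Mathlib

set_option autoImplicit false

namespace Pool.Agent.Results.MP_50e72c_co.Counter

open Finset

variable {n : ℕ}

/-- One application of the propagation rule. -/
def step (E : List (Finset (Fin n))) (B : Finset (Fin n)) : Finset (Fin n) :=
  B ∪ univ.filter fun v => ∃ e ∈ E, 2 ≤ e.card ∧ v ∈ e ∧ e.erase v ⊆ B

/-- From the burned set `B`, the remaining sources are legal and end with everything burned. -/
def BurnsFrom (E : List (Finset (Fin n))) : Finset (Fin n) → List (Fin n) → Prop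
  | B, [] => B = univ
  | B, x :: xs => x ∉ B ∧ BurnsFrom E (insert x (step E B)) xs

def Optimal (E : List (Finset (Fin n))) (u : List (Fin n)) : Prop :=
  BurnsFrom E ∅ u ∧ ∀ w, BurnsFrom E ∅ w → u.length ≤ w.length

def Lazy (E : List (Finset (Fin n))) (S : Finset (Fin n)) : Prop :=
  ∃ k, (step E)^[k] S = univ

def MinLazy (E : List (Finset (Fin n))) (S : Finset (Fin n)) : Prop :=
  Lazy E S ∧ ∀ T, Lazy E T → S.card ≤ T.card

def E0 : List (Finset (Fin 5)) := [{0, 3}, {1, 2, 3}, {0, 1, 4}, {0, 2, 3}, {0, 1, 2}, {0, 1, 3}]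

lemma opt : Optimal E0 [2, 1, 4] := by
  refine ⟨?_, ?_⟩
  · simp only [BurnsFrom]; decide +kernel
  · intro w hw
    match w, hw with
    | [], hw => simp only [BurnsFrom] at hw; exact absurd hw (by decide +kernel)
    | [a], hw => simp only [BurnsFrom] at hw; exact absurd hw (by revert a; decide +kernel)
    | [a, b], hw => simp only [BurnsFrom] at hw; exact absurd hw (by revert a b; decide +kernel)
    | _ :: _ :: _ :: _, _ => simp

lemma fix : ∀ S : Finset (Fin 5), S ⊆ {2, 1, 4} → S.card ≤ 1 → step E0 S = S ∧ S ≠ univ := by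
  decide +kernel

theorem result : ∃ (n : ℕ) (E : List (Finset (Fin n))) (u : List (Fin n)), 0 < n ∧
    (∀ v : Fin n, ∃ e ∈ E, 2 ≤ e.card ∧ v ∈ e) ∧
    Optimal E u ∧ ∀ S ⊆ u.toFinset, ¬ MinLazy E S := by
  refine ⟨5, E0, [2, 1, 4], by norm_num, by decide +kernel, opt, ?_⟩
  rintro S hS ⟨⟨k, hk⟩, hmin⟩
  have h1 := hmin {0} ⟨4, by decide +kernel⟩
  obtain ⟨h2, h3⟩ := fix S (by simpa using hS) (by simpa using h1)
  exact h3 ((Function.iterate_fixed h2 k).symm.trans hk)

end Pool.Agent.Results.MP_50e72c_co.Counter
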